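import Mathlib

/-!
Elementary facts on the completions of a number field: approximation by global elements, powers near
`1`, elements with prescribed valuations divisible by the class number.
-/

set_option autoImplicit false

open IsDedekindDomain NumberField WithZero

namespace Pool.Agent.U36.BA

variable {K : Type} [Field K] [NumberField K]

lemma val_K (v : HeightOneSpectrum (𝓞 K)) (k : K) :
    Valued.v (algebraMap K (v.adicCompletion K) k) = v.valuation K k := by
  rw [HeightOneSpectrum.algebraMap_adicCompletion]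
  exact HeightOneSpectrum.valuedAdicCompletion_eq_valuation' v _

/-- Elements of the completion are close to elements of the field. -/
lemma exists_near (v : HeightOneSpectrum (𝓞 K)) (x : v.adicCompletion K) {γ : ℤᵐ⁰} (hγ : γ ≠ 0) :
    ∃ f : K, Valued.v (x - algebraMap K (v.adicCompletion K) f) < γ := by
  obtain ⟨g, hg⟩ := v.valuation_surjective K γ
  have hg0 : g ≠ 0 := by
    rintro rfl
    rw [map_zero] at hg
    exact hγ hg.symm
  let g' : v.adicCompletion K := algebraMap K (v.adicCompletion K) g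
  have hg' : g' ≠ 0 := (_root_.map_ne_zero _).2 hg0
  have h1 : {y : v.adicCompletion K | (Valued.v (R := v.adicCompletion K)).restrict (y - x) <
      (Units.mk0 ((Valued.v (R := v.adicCompletion K)).restrict g') (by simpa using hg')).1} ∈
      nhds x := by
    rw [Valued.mem_nhds]
    exact ⟨_, subset_rfl⟩
  obtain ⟨f, hf⟩ := (HeightOneSpectrum.denseRange_algebraMap K v).mem_nhds h1
  refine ⟨f, ?_⟩
  have h2 : (Valued.v (R := v.adicCompletion K)).restrict (algebraMap K _ f - x) <
    (Valued.v (R := v.adicCompletion K)).restrict g' := hf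
  rw [Valuation.restrict_lt_iff] at h2
  have h3 : Valued.v (R := v.adicCompletion K) g' = γ := by
    rw [← hg]
    exact val_K v g
  rw [h3, Valuation.map_sub_swap] at h2
  exact h2

/-- Integral elements of the completion are close to integers. -/
lemma exists_near_int (v : HeightOneSpectrum (𝓞 K)) (x : v.adicCompletion K)
    (hx : Valued.v x ≤ 1) {γ : ℤᵐ⁰} (hγ : γ ≠ 0) :
    ∃ r : 𝓞 K, Valued.v (x - algebraMap K (v.adicCompletion K) (algebraMap (𝓞 K) K r)) < γ := by
  have hγ1 : min γ 1 ≠ 0 := by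
    rcases min_choice γ 1 with h | h <;> rw [h]
    · exact hγ
    · exact one_ne_zero
  obtain ⟨f, hf⟩ := exists_near v x hγ1
  have h1 : v.valuation K f ≤ 1 := by
    rw [← val_K]
    have e : algebraMap K (v.adicCompletion K) f =
        x - (x - algebraMap K (v.adicCompletion K) f) := by ring
    rw [e]
    exact (Valuation.map_sub _ _ _).trans (max_le hx (hf.le.trans (min_le_right _ _)))
  obtain ⟨a, ha⟩ := v.exists_valuation_sub_lt_of_integer (K := K) h1 (Units.mk0 γ hγ)
  refine ⟨a, ?_⟩
  have e : x - algebraMap K (v.adicCompletion K) (algebraMap (𝓞 K) K a) =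
      (x - algebraMap K (v.adicCompletion K) f) -
        algebraMap K (v.adicCompletion K) (algebraMap (𝓞 K) K a - f) := by
    rw [map_sub]; ring
  rw [e]
  refine lt_of_le_of_lt (Valuation.map_sub _ _ _) (max_lt (hf.trans_le (min_le_left _ _)) ?_)
  rw [val_K]
  exact ha

/-- The units of the completions have powers near `1`. -/
theorem pow_near_one (q : 𝓞 K) (hq : q ≠ 0) : ∃ e : ℕ, 0 < e ∧
    ∀ (v : HeightOneSpectrum (𝓞 K)) (w : v.adicCompletion K), Valued.v w = 1 →
      Valued.v (w ^ e - 1) ≤ v.valuation K (algebraMap (𝓞 K) K q) := by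
  classical
  have hfin0 : Finite (𝓞 K ⧸ Ideal.span {q}) :=
    Ideal.finiteQuotientOfFreeOfNeBot _ (by rwa [Ne, Ideal.span_singleton_eq_bot])
  refine ⟨(Nat.card (𝓞 K ⧸ Ideal.span {q})).factorial, Nat.factorial_pos _, fun v w hw => ?_⟩
  set e := (Nat.card (𝓞 K ⧸ Ideal.span {q})).factorial with he
  have hq0 : v.valuation K (algebraMap (𝓞 K) K q) ≠ 0 := by
    rw [Valuation.ne_zero_iff]
    simpa using hq
  have hq1 : v.valuation K (algebraMap (𝓞 K) K q) ≤ 1 := v.valuation_le_one q
  obtain ⟨r, hr⟩ := exists_near_int v w hw.le hq0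
  set N := multiplicity v.asIdeal (Ideal.span {q}) with hN
  have hqN : v.valuation K (algebraMap (𝓞 K) K q) = exp (-(N : ℤ)) := by
    rw [v.valuation_of_algebraMap, v.intValuation_eq_exp_neg_multiplicity hq]
  have hr1 : Valued.v (algebraMap K (v.adicCompletion K) (algebraMap (𝓞 K) K r)) = 1 := by
    have h1 : Valued.v (w - algebraMap K (v.adicCompletion K) (algebraMap (𝓞 K) K r)) <
        Valued.v w := by rw [hw]; exact hr.trans_le hq1
    have h2 := Valuation.map_sub_eq_of_lt_left (Valued.v (R := v.adicCompletion K)) h1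
    rw [sub_sub_cancel] at h2
    rw [h2, hw]
  have hrv : r ∉ v.asIdeal := by
    rw [val_K] at hr1
    exact v.valuation_eq_one_iff_notMem.1 hr1
  set I : Ideal (𝓞 K) := v.asIdeal ^ N with hI
  have hI0 : I ≠ ⊥ := pow_ne_zero _ v.ne_bot
  have hfin : Finite (𝓞 K ⧸ I) := Ideal.finiteQuotientOfFreeOfNeBot _ hI0
  have hmax : v.asIdeal.IsMaximal := v.isMaximal
  have hu : IsUnit (Ideal.Quotient.mk I r) := Ideal.Quotient.isUnit_mk_pow_of_notMem _ hrv
  obtain ⟨u, hu⟩ := hu
  have hcard : Nat.card (𝓞 K ⧸ I)ˣ ∣ e := by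
    apply Nat.dvd_factorial Nat.card_pos
    have hle : Ideal.span {q} ≤ I := by
      rw [Ideal.span_le, Set.singleton_subset_iff, SetLike.mem_coe, hI,
        ← v.intValuation_le_pow_iff_mem, ← v.valuation_of_algebraMap (K := K), hqN]
    calc Nat.card (𝓞 K ⧸ I)ˣ ≤ Nat.card (𝓞 K ⧸ I) :=
          Nat.card_le_card_of_injective _ Units.val_injective
      _ ≤ Nat.card (𝓞 K ⧸ Ideal.span {q}) :=
          Nat.card_le_card_of_surjective _ (Ideal.Quotient.factor_surjective hle)
  have hre : Ideal.Quotient.mk I (r ^ e) = 1 := by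
    obtain ⟨c, hc⟩ := hcard
    rw [map_pow, ← hu, hc, pow_mul, ← Units.val_pow_eq_pow_val, pow_card_eq_one', Units.val_one,
      one_pow]
  have hre' : v.valuation K (algebraMap (𝓞 K) K (r ^ e - 1)) ≤ exp (-(N : ℤ)) := by
    rw [v.valuation_of_algebraMap, v.intValuation_le_pow_iff_mem, ← hI,
      ← Ideal.Quotient.eq_zero_iff_mem, map_sub, hre, map_one, sub_self]
  have e1 : w ^ e - 1 = (w ^ e - (algebraMap K (v.adicCompletion K) (algebraMap (𝓞 K) K r)) ^ e) +
      algebraMap K (v.adicCompletion K) (algebraMap (𝓞 K) K (r ^ e - 1)) := by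
    simp only [map_sub, map_pow, map_one]
    ring
  rw [e1]
  refine (Valuation.map_add _ _ _).trans (max_le ?_ ?_)
  · rw [← Commute.geom_sum₂_mul (Commute.all _ _), map_mul]
    refine (mul_le_of_le_one_left' ?_).trans hr.le
    refine Valuation.map_sum_le _ fun i _ => ?_
    rw [map_mul, map_pow, map_pow, hw, hr1, one_pow, one_pow, one_mul]
  · rw [val_K, hqN]
    exact hre'

/-- almost all valuations of a nonzero element are `1` -/
lemma finite_ne_one {k : K} (hk : k ≠ 0) :
    {v : HeightOneSpectrum (𝓞 K) | v.valuation K k ≠ 1}.Finite := by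
  refine ((HeightOneSpectrum.Support.finite (𝓞 K) k).union
    (HeightOneSpectrum.Support.finite (𝓞 K) k⁻¹)).subset fun v hv => ?_
  rcases lt_or_gt_of_ne hv with h | h
  · right
    change 1 < v.valuation K k⁻¹
    rw [map_inv₀]
    exact (one_lt_inv₀ (zero_lt_iff.2 ((Valuation.ne_zero_iff _).2 hk))).2 h
  · left
    exact h

lemma exists_pi (v0 : HeightOneSpectrum (𝓞 K)) :
    ∃ π : K, π ≠ 0 ∧ v0.valuation K π = exp (-(classNumber K : ℤ)) ∧
      ∀ v : HeightOneSpectrum (𝓞 K), v ≠ v0 → v.valuation K π = 1 := by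
  classical
  set h := classNumber K with hh
  have h1 : v0.asIdeal ^ h ∈ nonZeroDivisors (Ideal (𝓞 K)) :=
    mem_nonZeroDivisors_of_ne_zero (pow_ne_zero _ v0.ne_bot)
  have h2 : ClassGroup.mk0 ⟨v0.asIdeal ^ h, h1⟩ = 1 := by
    have h3 : (⟨v0.asIdeal ^ h, h1⟩ : nonZeroDivisors (Ideal (𝓞 K))) =
        ⟨v0.asIdeal, mem_nonZeroDivisors_of_ne_zero v0.ne_bot⟩ ^ h := rfl
    rw [h3, map_pow, hh, classNumber, pow_card_eq_one]
  rw [ClassGroup.mk0_eq_one_iff] at h2
  obtain ⟨g, hg⟩ := h2.principal
  have hg' : v0.asIdeal ^ h = Ideal.span {g} := hg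
  have hg0 : g ≠ 0 := by
    rintro rfl
    rw [Ideal.span_singleton_zero] at hg'
    exact pow_ne_zero _ v0.ne_bot hg'
  refine ⟨algebraMap (𝓞 K) K g, by simpa using hg0, ?_, fun v hv => ?_⟩
  · rw [v0.valuation_of_algebraMap, v0.intValuation_eq_exp_neg_multiplicity hg0, ← hg',
      multiplicity_pow_self_of_prime v0.prime]
  · rw [v.valuation_eq_one_iff_notMem]
    intro hgv
    have h4 : v0.asIdeal ^ h ≤ v.asIdeal := by
      rw [hg', Ideal.span_le, Set.singleton_subset_iff]
      exact hgv
    have h5 : v0.asIdeal ≤ v.asIdeal := v.isPrime.le_of_pow_le h4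
    exact hv (HeightOneSpectrum.ext (v0.isMaximal.eq_of_le v.isPrime.ne_top h5)).symm

/-- There is an element with given valuations divisible by the class number. -/
theorem exists_principal (k : HeightOneSpectrum (𝓞 K) → ℤ) (hk : {v | k v ≠ 0}.Finite) :
    ∃ π : K, π ≠ 0 ∧ ∀ v : HeightOneSpectrum (𝓞 K),
      v.valuation K π = exp ((classNumber K : ℤ) * k v) := by
  classical
  choose p hp0 hp1 hp2 using exists_pi (K := K)
  refine ⟨∏ v ∈ hk.toFinset, p v ^ (-(k v)), ?_, fun v => ?_⟩
  · exact Finset.prod_ne_zero_iff.2 fun v _ => zpow_ne_zero _ (hp0 v)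
  · rw [map_prod]
    by_cases hv : k v = 0
    · rw [hv, mul_zero, exp_zero]
      refine Finset.prod_eq_one fun v' hv' => ?_
      have h1 : v ≠ v' := by
        rintro rfl
        exact (Set.Finite.mem_toFinset _).1 hv' hv
      rw [map_zpow₀, hp2 v' v h1, one_zpow]
    · rw [Finset.prod_eq_single v]
      · rw [map_zpow₀, hp1, ← exp_zsmul]
        congr 1
        rw [smul_eq_mul]
        ring
      · intro v' _ h1
        rw [map_zpow₀, hp2 v' v h1.symm, one_zpow]
      · intro h2
        exact absurd ((Set.Finite.mem_toFinset _).2 hv) h2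

end Pool.Agent.U36.BA
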