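import Pool.Agent.U36.BA.Basic

/-!
Congruences between norms; characteristic polynomials by interpolation.
-/

set_option autoImplicit false
set_option linter.unusedSectionVars false

open IsDedekindDomain NumberField WithZero Polynomial

namespace Pool.Agent.U36.BA

lemma prod_add_mul {R ι : Type} [CommRing R] (s : Finset ι) (q : R) (b z : ι → R) :
    ∃ c : R, ∏ i ∈ s, (b i + q * z i) = ∏ i ∈ s, b i + q * c := by
  classical
  induction s using Finset.induction_on with
  | empty => exact ⟨0, by simp⟩
  | insert a s ha ih =>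
    obtain ⟨c, hc⟩ := ih
    refine ⟨b a * c + z a * (∏ i ∈ s, b i + q * c), ?_⟩
    rw [Finset.prod_insert ha, Finset.prod_insert ha, hc]
    ring

variable {k K : Type} [Field k] [NumberField k] [Field K] [NumberField K] [Algebra k K]

/-- Norms of congruent integers are congruent. -/
theorem norm_congr (q : ℤ) (hq : q ≠ 0) (B z : 𝓞 K) : ∃ c : 𝓞 k,
    Algebra.norm k ((B : K) + (q : K) * (z : K)) = Algebra.norm k (B : K) + (q : k) * (c : k) := by
  classical
  set E := AlgebraicClosure k
  set A := integralClosure ℤ E with hA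
  have hmem : ∀ (σ : K →ₐ[k] E) (y : 𝓞 K), σ (y : K) ∈ A := by
    intro σ y
    exact (RingOfIntegers.isIntegral_coe y).map (σ.toRingHom.toIntAlgHom)
  set β : (K →ₐ[k] E) → A := fun σ => ⟨σ (B : K), hmem σ B⟩ with hβ
  set ζ : (K →ₐ[k] E) → A := fun σ => ⟨σ (z : K), hmem σ z⟩ with hζ
  obtain ⟨c, hc⟩ := prod_add_mul (R := A) (Finset.univ : Finset (K →ₐ[k] E)) (q : A) β ζ
  have h1 : algebraMap k E (Algebra.norm k ((B : K) + (q : K) * (z : K))) =
      algebraMap k E (Algebra.norm k (B : K)) + (q : E) * (c : E) := by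
    rw [Algebra.norm_eq_prod_embeddings, Algebra.norm_eq_prod_embeddings]
    have h2 := congrArg (Subtype.val) hc
    simp only [hβ, hζ] at h2
    push_cast at h2
    simp only [map_add, map_mul, map_intCast]
    exact h2
  set n : k := (Algebra.norm k ((B : K) + (q : K) * (z : K)) - Algebra.norm k (B : K)) / q with hn
  have hqk : (q : k) ≠ 0 := Int.cast_ne_zero.2 hq
  have hqE : (q : E) ≠ 0 := Int.cast_ne_zero.2 hq
  have h3 : algebraMap k E n = c := by
    rw [hn, map_div₀, map_sub, h1, map_intCast, add_sub_cancel_left, mul_div_cancel_left₀ _ hqE]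
  have h4 : IsIntegral ℤ n := by
    have h5 : IsIntegral ℤ (algebraMap k E n) := by
      rw [h3]
      exact c.2
    exact (isIntegral_algebraMap_iff (algebraMap k E).injective).1 h5
  refine ⟨⟨n, h4⟩, ?_⟩
  change _ = _ + (q : k) * n
  rw [hn, mul_div_cancel₀ _ hqk]
  ring

/-- the norms of elements with the same valuations differ by a unit -/
theorem norm_unit (b b' : K) (hb : b ≠ 0) (hb' : b' ≠ 0)
    (h : ∀ v : HeightOneSpectrum (𝓞 K), v.valuation K b = v.valuation K b') :
    ∃ u : (𝓞 k)ˣ, Algebra.norm k b = ((u : 𝓞 k) : k) * Algebra.norm k b' := by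
  have key : ∀ r : K, (∀ v : HeightOneSpectrum (𝓞 K), v.valuation K r ≤ 1) →
      IsIntegral ℤ (Algebra.norm k r) := by
    intro r hr
    obtain ⟨a, ha⟩ := HeightOneSpectrum.mem_integers_of_valuation_le_one K r hr
    rw [← ha]
    exact Algebra.isIntegral_norm k (RingOfIntegers.isIntegral_coe a)
  have hv0 : ∀ v : HeightOneSpectrum (𝓞 K), v.valuation K b ≠ 0 := fun v =>
    (Valuation.ne_zero_iff _).2 hb
  have h1 : IsIntegral ℤ (Algebra.norm k (b / b')) := key _ fun v => by
    rw [map_div₀, ← h v, div_self (hv0 v)]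
  have h2 : IsIntegral ℤ (Algebra.norm k (b' / b)) := key _ fun v => by
    rw [map_div₀, ← h v, div_self (hv0 v)]
  have h3 : Algebra.norm k (b / b') * Algebra.norm k (b' / b) = 1 := by
    rw [← map_mul, div_mul_div_cancel₀ hb', div_self hb, map_one]
  refine ⟨⟨⟨_, h1⟩, ⟨_, h2⟩, ?_, ?_⟩, ?_⟩
  · apply RingOfIntegers.ext
    exact h3
  · apply RingOfIntegers.ext
    change Algebra.norm k (b' / b) * Algebra.norm k (b / b') = 1
    rw [mul_comm]
    exact h3
  · change _ = Algebra.norm k (b / b') * Algebra.norm k b'
    rw [← map_mul, div_mul_cancel₀ _ hb']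

open scoped Classical in
/-- The characteristic polynomial of an element by interpolation. -/
theorem aeval_interp (C : Finset k) (hC : C.card = Module.finrank k K) (y : K) :
    y ^ Module.finrank k K + ∑ c ∈ C, algebraMap k K
      ((-1) ^ Module.finrank k K * Algebra.norm k (y - algebraMap k K c) -
        c ^ Module.finrank k K) * aeval y (Lagrange.basis C id c) = 0 := by
  set d := Module.finrank k K with hd
  set f : K →ₗ[k] K := Algebra.lmul k K y with hf
  have hm : f.charpoly.Monic := f.charpoly_monic
  have hdeg : f.charpoly.natDegree = d := f.charpoly_natDegree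
  have h1 : (f.charpoly - X ^ d).degree < (C.card : WithBot ℕ) := by
    rw [hC]
    have h2 : f.charpoly.degree = (X ^ d : k[X]).degree := by
      rw [degree_X_pow, degree_eq_natDegree hm.ne_zero, hdeg]
    have h7 : (f.charpoly - X ^ d).degree < f.charpoly.degree :=
      degree_sub_lt_left h2 hm.ne_zero (by rw [hm.leadingCoeff, leadingCoeff_X_pow])
    rw [degree_eq_natDegree hm.ne_zero, hdeg] at h7
    exact h7
  have h3 := Lagrange.eq_interpolate (s := C) (v := (id : k → k)) Function.injective_id.injOn h1
  have h6 : ∀ c : k, (f.charpoly - X ^ d).eval c =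
      (-1) ^ d * Algebra.norm k (y - algebraMap k K c) - c ^ d := by
    intro c
    rw [eval_sub, eval_pow, eval_X, LinearMap.eval_charpoly]
    congr 1
    have h8 : (-1 : k) ^ d * Algebra.norm k (y - algebraMap k K c) =
        Algebra.norm k (algebraMap k K c - y) := by
      have h9 : algebraMap k K c - y = algebraMap k K (-1) * (y - algebraMap k K c) := by
        rw [map_neg, map_one]
        ring
      rw [h9, map_mul, Algebra.norm_algebraMap]
    rw [h8, Algebra.norm_apply]
    congr 1
    rw [map_sub, hf]
    congr 1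
    ext z
    simp
  have h4 : aeval y f.charpoly = 0 := Algebra.aeval_self_charpoly_lmul y
  have h5 : f.charpoly = X ^ d + (f.charpoly - X ^ d) := by ring
  rw [h5, map_add, map_pow, aeval_X, h3, Lagrange.interpolate_apply, map_sum] at h4
  rw [← h4]
  congr 1
  refine Finset.sum_congr rfl fun c _ => ?_
  rw [map_mul, aeval_C]
  simp only [id]
  rw [h6]

end Pool.Agent.U36.BA
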