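import Mathlib

/-!
An element `y` of an extension `K` of degree `d` is integral over the norms of `y - c`, for `c` in a
set of `d` elements of `K`, by one polynomial for all `y`.
-/

set_option autoImplicit false

open Polynomial Finset

namespace Pool.Agent.U36.BA

section general

variable {F E ι κ : Type} [Field F] [Field E] [Algebra F E] [Algebra.IsAlgebraic F E] [Fintype ι]
  [Fintype κ]

/-- If the `a c i` are different for fixed `i` and there are at least as many `c` as `i`, then the
variables are integral over the products `∏ (X i - a c i)`. -/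
theorem integral_var (a : κ → ι → E) (ha : ∀ i, Function.Injective fun c => a c i)
    (hcard : Fintype.card ι ≤ Fintype.card κ) (i0 : ι) :
    ∃ p : Polynomial (MvPolynomial κ F), p.Monic ∧
      p.eval₂ (MvPolynomial.eval₂Hom ((MvPolynomial.C (σ := ι)).comp (algebraMap F E))
        (fun c => ∏ i, ((MvPolynomial.X i : MvPolynomial ι E) - MvPolynomial.C (a c i))))
        (MvPolynomial.X i0) = 0 := by
  classical
  set R := MvPolynomial ι E with hR
  set L := FractionRing R with hL
  set ψR : MvPolynomial κ F →+* R :=
    MvPolynomial.eval₂Hom ((MvPolynomial.C (σ := ι)).comp (algebraMap F E))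
        (fun c => ∏ i, ((MvPolynomial.X i : MvPolynomial ι E) - MvPolynomial.C (a c i))) with hψR
  set ψ : MvPolynomial κ F →+* L := (algebraMap R L).comp ψR with hψ
  set x : ι → L := fun i => algebraMap R L (MvPolynomial.X i) with hx
  let γ : E →+* L := (algebraMap R L).comp MvPolynomial.C
  have hprod : ∀ c, ψ (MvPolynomial.X c) = ∏ i, (x i - γ (a c i)) := by
    intro c
    simp only [hψ, hψR, RingHom.comp_apply, MvPolynomial.coe_eval₂Hom, MvPolynomial.eval₂_X,
      map_prod, map_sub, hx, γ]
  -- the valuative criterion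
  have key : ∀ V : ValuationSubring L, (ψ.range : Set L) ⊆ V.toSubring → x i0 ∈ V := by
    intro V hV
    have hF : ∀ f : F, γ (algebraMap F E f) ∈ V := by
      intro f
      have h1 : ψ (MvPolynomial.C f) = γ (algebraMap F E f) := by
        simp only [hψ, hψR, RingHom.comp_apply, MvPolynomial.coe_eval₂Hom, MvPolynomial.eval₂_C, γ]
      rw [← h1]
      exact hV ⟨_, rfl⟩
    have hE : ∀ e : E, γ e ∈ V := by
      intro e
      have h1 : IsIntegral F e := Algebra.IsIntegral.isIntegral e
      obtain ⟨q, hq, hq0⟩ := h1
      -- `γ e` is integral over `V`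
      have h2 : IsIntegral V (γ e) := by
        let f' : F →+* V := (γ.comp (algebraMap F E)).codRestrict V.toSubring hF
        refine ⟨q.map f', hq.map _, ?_⟩
        rw [eval₂_map]
        have h3 : (algebraMap V L).comp f' = γ.comp (algebraMap F E) := rfl
        rw [h3, ← hom_eval₂, hq0, map_zero]
      obtain ⟨w, hw⟩ := IsIntegrallyClosed.isIntegral_iff.1 h2
      rw [← hw]
      exact w.2
    -- valuations
    set val := V.valuation with hval
    have hmem : ∀ z : L, z ∈ V ↔ val z ≤ 1 := fun z => (V.valuation_le_one_iff z).symm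
    have hγ1 : ∀ e : E, e ≠ 0 → val (γ e) = 1 := by
      intro e he
      apply le_antisymm ((hmem _).1 (hE e))
      have h1 := (hmem _).1 (hE e⁻¹)
      rw [map_inv₀, map_inv₀] at h1
      have h2 : val (γ e) ≠ 0 := by
        rw [Valuation.ne_zero_iff]
        exact (_root_.map_ne_zero _).2 he
      exact (inv_le_one₀ (zero_lt_iff.2 h2)).1 h1
    by_contra hno
    have hno' : ¬ val (x i0) ≤ 1 := fun h => hno ((hmem _).2 h)
    have hN : ∀ c, ∏ i, val (x i - γ (a c i)) ≤ 1 := by
      intro c
      rw [← map_prod, ← hprod, ← hmem]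
      exact hV ⟨_, rfl⟩
    -- for every `c` there is `i ≠ i0` with `val (x i - a c i) < 1`
    have hbig : ∀ c i, ¬ val (x i) ≤ 1 → val (x i - γ (a c i)) = val (x i) := by
      intro c i hi
      apply Valuation.map_sub_eq_of_lt_left
      exact lt_of_le_of_lt ((hmem _).1 (hE _)) (not_le.1 hi)
    have hex : ∀ c, ∃ i, i ≠ i0 ∧ val (x i - γ (a c i)) < 1 := by
      intro c
      by_contra hall
      push Not at hall
      have h1 : 1 < ∏ i, val (x i - γ (a c i)) := by
        rw [← Finset.mul_prod_erase _ _ (Finset.mem_univ i0), hbig c i0 hno']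
        have h2 : (1 : V.ValueGroup) ≤ ∏ i ∈ Finset.univ.erase i0, val (x i - γ (a c i)) := by
          have : ∏ i ∈ (Finset.univ.erase i0 : Finset ι), (1 : V.ValueGroup) ≤
              ∏ i ∈ Finset.univ.erase i0, val (x i - γ (a c i)) :=
            Finset.prod_le_prod' fun i hi => hall i (Finset.ne_of_mem_erase hi)
          rwa [Finset.prod_const_one] at this
        exact lt_of_lt_of_le (not_le.1 hno') (le_mul_of_one_le_right' h2)
      exact absurd (hN c) (not_le.2 h1)
    choose g hg1 hg2 using hex
    have hginj : Function.Injective g := by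
      intro c c' hcc
      by_contra hne
      have h1 := hg2 c
      have h2 := hg2 c'
      rw [← hcc] at h2
      have h3 : val (γ (a c (g c)) - γ (a c' (g c))) < 1 := by
        have e1 : γ (a c (g c)) - γ (a c' (g c)) =
            (x (g c) - γ (a c' (g c))) - (x (g c) - γ (a c (g c))) := by ring
        rw [e1]
        exact lt_of_le_of_lt (Valuation.map_sub _ _ _) (max_lt h2 h1)
      rw [← map_sub, hγ1] at h3
      · exact lt_irrefl _ h3
      · rw [sub_ne_zero]
        exact fun h => hne (ha (g c) h)
    have hlt : Fintype.card κ < Fintype.card ι := by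
      apply Fintype.card_lt_of_injective_of_notMem g hginj (b := i0)
      rintro ⟨c, hc⟩
      exact hg1 c hc
    omega
  -- conclusion
  have h1 : x i0 ∈ (integralClosure (Subring.closure (ψ.range : Set L)) L).toSubring := by
    rw [← iInf_valuationSubring_superset, Subring.mem_iInf]
    rintro ⟨V, hV⟩
    exact key V hV
  have h2 : IsIntegral (Subring.closure (ψ.range : Set L)) (x i0) := h1
  rw [Subring.closure_eq] at h2
  obtain ⟨q, hq, hq0⟩ := h2
  have hsurj : Function.Surjective ψ.rangeRestrict := ψ.rangeRestrict_surjective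
  obtain ⟨p, hp1, -, hp3⟩ := lifts_and_natDegree_eq_and_monic
    ((mem_lifts q).2 (Polynomial.map_surjective _ hsurj q)) hq
  refine ⟨p, hp3, ?_⟩
  have h3 : (algebraMap R L) (p.eval₂ ψR (MvPolynomial.X i0)) = 0 := by
    rw [hom_eval₂, ← hq0, ← hp1, eval₂_map]
    rfl
  exact (map_eq_zero_iff _ (IsFractionRing.injective R L)).1 h3

end general

open scoped Classical in
/-- One polynomial for all `y`. -/
theorem exists_univ {k K : Type} [Field k] [CharZero k] [Field K] [Algebra k K]
    [FiniteDimensional k K] (C : Finset K) (hC : Module.finrank k K ≤ C.card) :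
    ∃ p : Polynomial (MvPolynomial C K), p.Monic ∧ ∀ y : K,
      p.eval₂ (MvPolynomial.eval₂Hom (RingHom.id K)
        (fun c : C => algebraMap k K (Algebra.norm k (y - c)))) y = 0 := by
  set E := AlgebraicClosure K with hE
  have hk : IsScalarTower k K E := inferInstance
  have hac : Algebra.IsAlgebraic K E := AlgebraicClosure.isAlgebraic K
  obtain ⟨p, hp, hp0⟩ := integral_var (F := K) (E := E) (ι := K →ₐ[k] E) (κ := C)
    (fun c σ => σ (c : K)) (fun σ c c' h => Subtype.ext (σ.injective h)) (by
      rw [AlgHom.card, Fintype.card_coe]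
      exact hC) (IsScalarTower.toAlgHom k K E)
  refine ⟨p, hp, fun y => ?_⟩
  apply (algebraMap K E).injective
  rw [map_zero, hom_eval₂]
  have h1 := congrArg (MvPolynomial.eval (fun σ : K →ₐ[k] E => σ y)) hp0
  rw [map_zero, hom_eval₂, MvPolynomial.eval_X] at h1
  have h2 : (algebraMap K E).comp (MvPolynomial.eval₂Hom (RingHom.id K)
        (fun c : C => algebraMap k K (Algebra.norm k (y - c)))) =
      (MvPolynomial.eval (fun σ : K →ₐ[k] E => σ y)).comp
        (MvPolynomial.eval₂Hom ((MvPolynomial.C (σ := K →ₐ[k] E)).comp (algebraMap K E))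
        (fun c : C => ∏ σ : K →ₐ[k] E, ((MvPolynomial.X σ : MvPolynomial (K →ₐ[k] E) E) -
          MvPolynomial.C (σ (c : K))))) := by
    apply MvPolynomial.ringHom_ext
    · intro r
      simp
    · intro c
      simp only [RingHom.comp_apply, MvPolynomial.coe_eval₂Hom, MvPolynomial.eval₂_X, map_prod,
        map_sub, MvPolynomial.eval_X, MvPolynomial.eval_C]
      rw [← IsScalarTower.algebraMap_apply k K E, Algebra.norm_eq_prod_embeddings]
      simp only [map_sub]
  rw [h2]
  exact h1

end Pool.Agent.U36.BA
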