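import Pool.Agent.U36.BA.Seq
import Pool.Agent.U36.BA.Norm
import Pool.Agent.U36.BA.Univ

/-!
The local points are roots of a polynomial over a subfield with finitely many units.
-/

set_option autoImplicit false
set_option linter.unusedSectionVars false

open IsDedekindDomain NumberField WithZero Polynomial Filter Topology

namespace Pool.Agent.U36.BA

section top

variable {K : Type} [Field K] [NumberField K]

lemma tendsto_zero_of_val (v : HeightOneSpectrum (𝓞 K)) {l : Filter ℕ}
    {f : ℕ → v.adicCompletion K}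
    (h : ∀ γ : ℤᵐ⁰, γ ≠ 0 → ∀ᶠ j in l, Valued.v (f j) < γ) : Tendsto f l (𝓝 0) := by
  intro s hs
  rw [Valued.mem_nhds_zero] at hs
  obtain ⟨γ, hγ⟩ := hs
  have h0 : MonoidWithZeroHom.ValueGroup₀.embedding
      (γ : MonoidWithZeroHom.ValueGroup₀ (.ofClass (Valued.v (R := v.adicCompletion K)))) ≠ 0 := by
    rw [Ne, map_eq_zero]
    exact γ.ne_zero
  rw [Filter.mem_map]
  filter_upwards [h _ h0] with j hj
  apply hγ
  change (Valued.v (R := v.adicCompletion K)).restrict (f j) < γ
  rw [← Valuation.embedding_restrict] at hj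
  exact (MonoidWithZeroHom.ValueGroup₀.embedding_strictMono.lt_iff_lt).1 hj

/-- there are integers with small valuation -/
lemma exists_small (v : HeightOneSpectrum (𝓞 K)) {γ : ℤᵐ⁰} (hγ : γ ≠ 0) :
    ∃ q : ℤ, q ≠ 0 ∧ v.valuation K (q : K) < γ := by
  have h1 : ∃ n : ℕ, (n : 𝓞 K) ∈ v.asIdeal ∧ n ≠ 0 := by
    refine ⟨Ideal.absNorm v.asIdeal, Ideal.absNorm_mem v.asIdeal, ?_⟩
    rw [Ne, Ideal.absNorm_eq_zero_iff]
    exact v.ne_bot
  obtain ⟨n, hn, hn0⟩ := h1
  have h2 : v.valuation K (n : K) < 1 := by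
    have h3 : v.valuation K (algebraMap (𝓞 K) K n) < 1 := (v.valuation_lt_one_iff_mem _).2 hn
    rwa [map_natCast] at h3
  obtain ⟨m, hm⟩ := exists_pow_lt₀ h2 (Units.mk0 γ hγ)
  refine ⟨(n : ℤ) ^ m, pow_ne_zero _ (Int.natCast_ne_zero.2 hn0), ?_⟩
  push_cast
  rw [map_pow]
  exact hm

end top

variable {k K : Type} [Field k] [NumberField k] [Field K] [NumberField K] [Algebra k K]

open scoped Classical in
/-- Let `k` be a subfield of `K` with finitely many units. If the valuations of the `x v - c` are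
bounded for `c` in a set of at least `[K : k]` elements of `K`, and the families `x v - c` are global
modulo all powers, then the `x v` are roots of one polynomial over `K`. -/
theorem core [Finite (𝓞 k)ˣ] (C : Finset K) (hC : Module.finrank k K ≤ C.card)
    (x : ∀ v : HeightOneSpectrum (𝓞 K), v.adicCompletion K) (B : ℕ)
    (h : ∀ c ∈ C, Hyp (fun v => x v - algebraMap K (v.adicCompletion K) c) B) :
    ∃ P : K[X], P.Monic ∧
      ∀ v : HeightOneSpectrum (𝓞 K), P.eval₂ (algebraMap K (v.adicCompletion K)) (x v) = 0 := by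
  set d := Module.finrank k K with hd
  have hd0 : 0 < d := Module.finrank_pos
  obtain ⟨c0, hc0⟩ : C.Nonempty := Finset.card_pos.1 (by omega)
  have hex : ∀ c : K, ∃ b : ℕ → K, c ∈ C → (∀ j, b j ≠ 0) ∧
      (∀ (j : ℕ) (v : HeightOneSpectrum (𝓞 K)), v.valuation K (b j) =
        Valued.v (x v - algebraMap K (v.adicCompletion K) c)) ∧
      ∀ q : 𝓞 K, q ≠ 0 → ∃ j0, ∀ j, j0 ≤ j → ∀ v : HeightOneSpectrum (𝓞 K),
        Valued.v (x v - algebraMap K (v.adicCompletion K) c -
          algebraMap K (v.adicCompletion K) (b j)) ≤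
          Valued.v (x v - algebraMap K (v.adicCompletion K) c) *
            v.valuation K (algebraMap (𝓞 K) K q) := by
    intro c
    by_cases hc : c ∈ C
    · obtain ⟨b, h1, h2, h3⟩ := (h c hc).exists_seq
      exact ⟨b, fun _ => ⟨h1, h2, h3⟩⟩
    · exact ⟨fun _ => 1, fun h' => absurd h' hc⟩
  choose b hb using hex
  have hb0 : ∀ c ∈ C, ∀ j, b c j ≠ 0 := fun c hc => (hb c hc).1
  have hbv := fun (c : K) (hc : c ∈ C) => (hb c hc).2.1
  have hbq := fun (c : K) (hc : c ∈ C) => (hb c hc).2.2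
  -- the approximations
  set y : ℕ → K := fun j => b c0 j + c0 with hy
  -- units
  have hun : ∀ (j : ℕ) (c : C), ∃ u : (𝓞 k)ˣ, Algebra.norm k (b c j) =
      ((u : 𝓞 k) : k) * Algebra.norm k (b c 0) := fun j c =>
    norm_unit (b c j) (b c 0) (hb0 c c.2 j) (hb0 c c.2 0) fun v => by rw [hbv c c.2, hbv c c.2]
  choose u hu using hun
  obtain ⟨ε, hε⟩ := Finite.exists_infinite_fiber u
  set J : Set ℕ := u ⁻¹' {ε} with hJ
  have hJinf : J.Infinite := Set.infinite_coe_iff.1 hε
  set ρ : C → k := fun c => ((ε c : 𝓞 k) : k) * Algebra.norm k (b c 0) with hρ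
  have hρJ : ∀ j ∈ J, ∀ c : C, Algebra.norm k (b c j) = ρ c := by
    intro j hj c
    have h1 : u j = ε := hj
    rw [hu j c, h1, hρ]
  -- the common denominator
  obtain ⟨D, hD0, hD⟩ : ∃ D : ℤ, D ≠ 0 ∧ ∀ c ∈ C, ∀ v : HeightOneSpectrum (𝓞 K),
      v.valuation K (D : K) *
        Valued.v (x v - algebraMap K (v.adicCompletion K) c) ≤ 1 := by
    obtain ⟨D, hD0, hD⟩ := exists_integral_multiples ℤ ℚ (L := K) (C.image fun c => b c 0)
    refine ⟨D, hD0, fun c hc v => ?_⟩
    rw [← hbv c hc 0 v, ← map_mul]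
    have h1 := hD (b c 0) (Finset.mem_image_of_mem _ hc)
    rw [zsmul_eq_mul] at h1
    exact v.valuation_le_one (K := K) (⟨_, h1⟩ : 𝓞 K)
  have hDK : (D : K) ≠ 0 := Int.cast_ne_zero.2 hD0
  have hDk : (D : k) ≠ 0 := Int.cast_ne_zero.2 hD0
  -- shorthand
  let ι : ∀ v : HeightOneSpectrum (𝓞 K), K →+* v.adicCompletion K := fun v =>
    algebraMap K (v.adicCompletion K)
  let e : k →+* K := algebraMap k K
  have hval : ∀ (v : HeightOneSpectrum (𝓞 K)) (a : K), Valued.v (ι v a) = v.valuation K a :=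
    fun v a => val_K v a
  have hyc0 : ∀ (v : HeightOneSpectrum (𝓞 K)) (j : ℕ), v.valuation K (y j - c0) =
      Valued.v (x v - ι v c0) := fun v j => by
    rw [← hbv c0 hc0 j v]
    congr 1
    simp only [hy]
    ring
  -- `D (y j - c)` is integral
  have hDy : ∀ c ∈ C, ∀ (j : ℕ) (v : HeightOneSpectrum (𝓞 K)),
      v.valuation K ((D : K) * (y j - c)) ≤ 1 := by
    intro c hc j v
    have e1 : (D : K) * (y j - c) = D * (y j - c0) + D * (c0 - c) := by ring
    rw [e1]
    refine (Valuation.map_add _ _ _).trans (max_le ?_ ?_)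
    · rw [map_mul, hyc0]
      exact hD c0 hc0 v
    · rw [← hval, map_mul, map_mul]
      have e2 : ι v (c0 - c) = (x v - ι v c) - (x v - ι v c0) := by
        rw [map_sub]; ring
      rw [e2, ← map_mul, mul_sub]
      refine (Valuation.map_sub _ _ _).trans (max_le ?_ ?_)
      · rw [map_mul, hval]
        exact hD c hc v
      · rw [map_mul, hval]
        exact hD c0 hc0 v
  have hDb : ∀ c ∈ C, ∀ (j : ℕ) (v : HeightOneSpectrum (𝓞 K)),
      v.valuation K ((D : K) * b c j) ≤ 1 := by
    intro c hc j v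
    rw [map_mul, hbv c hc]
    exact hD c hc v
  -- the difference
  have hdiff : ∀ c ∈ C, ∀ q : ℤ, q ≠ 0 → ∀ᶠ j in atTop, ∀ v : HeightOneSpectrum (𝓞 K),
      v.valuation K ((D : K) * (y j - c - b c j)) ≤ v.valuation K (q : K) := by
    intro c hc q hq
    have hq' : (q : 𝓞 K) ≠ 0 := Int.cast_ne_zero.2 hq
    obtain ⟨j1, hj1⟩ := hbq c hc q hq'
    obtain ⟨j2, hj2⟩ := hbq c0 hc0 q hq'
    filter_upwards [eventually_ge_atTop j1, eventually_ge_atTop j2] with j h1 h2 v
    have h3 := hj1 j h1 v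
    have h4 := hj2 j h2 v
    rw [map_intCast] at h3 h4
    rw [← hval]
    have e1 : ι v ((D : K) * (y j - c - b c j)) =
        ι v D * (x v - ι v c - ι v (b c j)) - ι v D * (x v - ι v c0 - ι v (b c0 j)) := by
      simp only [hy, map_mul, map_sub, map_add]
      ring
    rw [e1]
    refine (Valuation.map_sub _ _ _).trans (max_le ?_ ?_)
    · rw [map_mul, hval]
      refine (mul_le_mul_right h3 _).trans ?_
      rw [← mul_assoc]
      exact mul_le_of_le_one_left' (hD c hc v)
    · rw [map_mul, hval]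
      refine (mul_le_mul_right h4 _).trans ?_
      rw [← mul_assoc]
      exact mul_le_of_le_one_left' (hD c0 hc0 v)
  -- the norms
  have hnorm : ∀ c ∈ C, ∀ q : ℤ, q ≠ 0 → ∀ᶠ j in atTop, ∀ v : HeightOneSpectrum (𝓞 K),
      v.valuation K (D : K) ^ d * v.valuation K
        (e (Algebra.norm k (y j - c) - Algebra.norm k (b c j))) ≤ v.valuation K (q : K) := by
    intro c hc q hq
    have hqK : (q : K) ≠ 0 := Int.cast_ne_zero.2 hq
    filter_upwards [hdiff c hc q hq] with j hj v
    obtain ⟨B1, hB1⟩ := HeightOneSpectrum.mem_integers_of_valuation_le_one K ((D : K) * b c j)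
      (hDb c hc j)
    obtain ⟨z1, hz1⟩ := HeightOneSpectrum.mem_integers_of_valuation_le_one (R := 𝓞 K) K
      ((D : K) * (y j - c - b c j) / q) (fun v => by
        rw [map_div₀]
        exact div_le_one_of_le₀ (hj v) zero_le)
    obtain ⟨c1, hc1⟩ := norm_congr (k := k) q hq B1 z1
    have e1 : (B1 : K) + (q : K) * (z1 : K) = (D : K) * (y j - c) := by
      change algebraMap (𝓞 K) K B1 + q * algebraMap (𝓞 K) K z1 = _
      rw [hB1, hz1, mul_div_cancel₀ _ hqK]
      ring
    have e2 : (B1 : K) = (D : K) * b c j := hB1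
    rw [e1, e2] at hc1
    have e3 : (D : K) = algebraMap k K (D : k) := by rw [map_intCast]
    rw [map_mul, map_mul, e3, Algebra.norm_algebraMap, ← hd] at hc1
    have e4 : (D : k) ^ d * (Algebra.norm k (y j - c) - Algebra.norm k (b c j)) =
        (q : k) * (c1 : k) := by
      rw [mul_sub, hc1]
      ring
    rw [← map_pow, ← map_mul]
    have e5 : (D : K) ^ d * e (Algebra.norm k (y j - c) - Algebra.norm k (b c j)) =
        (q : K) * e (c1 : k) := by
      have := congrArg e e4
      rwa [map_mul, map_mul, map_pow, map_intCast, map_intCast] at this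
    rw [e5, map_mul]
    refine mul_le_of_le_one_right' ?_
    have h6 : IsIntegral ℤ (e (c1 : k)) := (RingOfIntegers.isIntegral_coe c1).map e.toIntAlgHom
    exact v.valuation_le_one (K := K) (⟨_, h6⟩ : 𝓞 K)
  -- limits
  have hvD : ∀ v : HeightOneSpectrum (𝓞 K), v.valuation K (D : K) ≠ 0 := fun v =>
    (Valuation.ne_zero_iff _).2 hDK
  have hlim1 : ∀ v : HeightOneSpectrum (𝓞 K), ∀ c ∈ C,
      Tendsto (fun j => ι v (e (Algebra.norm k (y j - c) - Algebra.norm k (b c j)))) atTop
        (𝓝 0) := by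
    intro v c hc
    refine tendsto_zero_of_val v fun γ hγ => ?_
    obtain ⟨q, hq0, hq⟩ := exists_small v (mul_ne_zero (pow_ne_zero d (hvD v)) hγ)
    filter_upwards [hnorm c hc q hq0] with j hj
    rw [hval]
    have h1 := (hj v).trans_lt hq
    exact lt_of_mul_lt_mul_left' h1
  have hlim2 : ∀ v : HeightOneSpectrum (𝓞 K), Tendsto (fun j => ι v (y j)) atTop (𝓝 (x v)) := by
    intro v
    have h0 : Tendsto (fun j => ι v (y j) - x v) atTop (𝓝 0) := by
      refine tendsto_zero_of_val v fun γ hγ => ?_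
      have h1 : Valued.v (x v - ι v c0) ≠ 0 := (h c0 hc0).val_ne v
      obtain ⟨q, hq0, hq⟩ := exists_small v (mul_ne_zero (inv_ne_zero h1) hγ)
      obtain ⟨j2, hj2⟩ := hbq c0 hc0 (q : 𝓞 K) (Int.cast_ne_zero.2 hq0)
      filter_upwards [eventually_ge_atTop j2] with j h2
      have h4 := hj2 j h2 v
      rw [map_intCast] at h4
      have e1 : x v - ι v c0 - ι v (b c0 j) = x v - ι v (y j) := by
        simp only [hy, map_add]
        ring
      rw [Valuation.map_sub_swap, ← e1]
      refine h4.trans_lt ?_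
      calc Valued.v (x v - ι v c0) * v.valuation K (q : K)
          < Valued.v (x v - ι v c0) * ((Valued.v (x v - ι v c0))⁻¹ * γ) :=
            (mul_lt_mul_iff_right₀ (zero_lt_iff.2 h1)).2 hq
        _ = γ := by rw [← mul_assoc, mul_inv_cancel₀ h1, one_mul]
    have h1 := h0.add_const (x v)
    simpa using h1
  -- the polynomial
  obtain ⟨p, hp, hp0⟩ := exists_univ (k := k) C hC
  refine ⟨p.map (MvPolynomial.eval₂Hom (RingHom.id K) fun c => e (ρ c)), hp.map _, fun v => ?_⟩
  set l : Filter ℕ := atTop ⊓ 𝓟 J with hl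
  have hne : l.NeBot := by
    rw [hl, ← frequently_mem_iff_neBot]
    exact Nat.frequently_atTop_iff_infinite.2 hJinf
  -- the continuous function
  let Φ : (C → v.adicCompletion K) → v.adicCompletion K → v.adicCompletion K := fun n z =>
    ∑ i ∈ Finset.range (p.natDegree + 1),
      MvPolynomial.eval n (MvPolynomial.map (ι v) (p.coeff i)) * z ^ i
  have hΦ : ∀ (n : C → K) (z : v.adicCompletion K), Φ (fun c => ι v (n c)) z =
      p.eval₂ ((ι v).comp (MvPolynomial.eval₂Hom (RingHom.id K) n)) z := by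
    intro n z
    rw [eval₂_eq_sum_range]
    refine Finset.sum_congr rfl fun i _ => ?_
    congr 1
    rw [RingHom.comp_apply, MvPolynomial.coe_eval₂Hom, MvPolynomial.eval_map]
    rw [MvPolynomial.eval₂_comp_left (ι v)]
    rfl
  have hcont : Continuous fun q : (C → v.adicCompletion K) × v.adicCompletion K =>
      Φ q.1 q.2 := by
    refine continuous_finsetSum _ fun i _ => ?_
    exact ((MvPolynomial.continuous_eval _).comp continuous_fst).mul (continuous_snd.pow i)
  have hn : Tendsto (fun j => fun c : C => ι v (e (Algebra.norm k (y j - c)))) l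
      (𝓝 fun c => ι v (e (ρ c))) := by
    rw [tendsto_pi_nhds]
    intro c
    have h1 := (hlim1 v c c.2).mono_left (inf_le_left : l ≤ atTop)
    have h2 := h1.add_const (ι v (e (ρ c)))
    rw [zero_add] at h2
    refine h2.congr' ?_
    have h7 : ∀ᶠ j in l, j ∈ J := eventually_inf_principal.2 (Eventually.of_forall fun j hj => hj)
    filter_upwards [h7] with j hj
    rw [hρJ j hj c]
    simp only [map_sub]
    ring
  have hz : Tendsto (fun j => ι v (y j)) l (𝓝 (x v)) := (hlim2 v).mono_left inf_le_left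
  have hlimΦ := (hcont.tendsto (⟨fun c => ι v (e (ρ c)), x v⟩)).comp (hn.prodMk_nhds hz)
  have hzero : ∀ j, Φ (fun c => ι v (e (Algebra.norm k (y j - c)))) (ι v (y j)) = 0 := by
    intro j
    rw [hΦ (fun c : C => e (Algebra.norm k (y j - c))) (ι v (y j)), ← hom_eval₂]
    have := hp0 (y j)
    rw [show (MvPolynomial.eval₂Hom (RingHom.id K) fun c : C => e (Algebra.norm k (y j - c))) =
      (MvPolynomial.eval₂Hom (RingHom.id K)
        (fun c : C => algebraMap k K (Algebra.norm k (y j - c)))) from rfl, this, map_zero]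
  rw [eval₂_map, ← hΦ]
  refine tendsto_nhds_unique hlimΦ ?_
  have h8 : (fun q : (C → v.adicCompletion K) × v.adicCompletion K => Φ q.1 q.2) ∘
      (fun j => ((fun c : C => ι v (e (Algebra.norm k (y j - c)))), ι v (y j))) = fun _ => 0 := by
    funext j
    exact hzero j
  rw [h8]
  exact tendsto_const_nhds

end Pool.Agent.U36.BA
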