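import Pool.Agent.U36.BA.Sect

/-!
Birational sections whose local points are bounded away from finitely many rational points.
-/

set_option autoImplicit false
set_option linter.unusedSectionVars false

open IsDedekindDomain NumberField WithZero Polynomial

namespace Pool.Agent.U36.BA

open Pool.Agent.TH954

variable {K : Type} [Field K] [NumberField K] {F Ω B : Type} [Field F] [Field Ω] [Field B]
  [Algebra K F] [Algebra F Ω] [Algebra K Ω] [Algebra K B] [IsScalarTower K F Ω]
  [IsAlgClosure F Ω] [IsAlgClosure K B]

/-- The function `t` has at the place `p v` a value in the completion `K_v`, for every finite place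
`v`, and for every `c ∈ C` the valuations of these values minus `c` are bounded. -/
def BoundedAway (p : ∀ v : HeightOneSpectrum (𝓞 K), Plc K Ω (AlgebraicClosure (v.adicCompletion K)))
    (t : F) (C : Finset K) : Prop :=
  ∃ N : ℕ, ∀ v : HeightOneSpectrum (𝓞 K), ∃ x : v.adicCompletion K,
    (p v).val (algebraMap F Ω t)
      (algebraMap (v.adicCompletion K) (AlgebraicClosure (v.adicCompletion K)) x) ∧
    ∀ c ∈ C, exp (-(N : ℤ)) ≤ Valued.v (x - algebraMap K (v.adicCompletion K) c) ∧
      Valued.v (x - algebraMap K (v.adicCompletion K) c) ≤ exp (N : ℤ)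

/-- the local points of a section which comes from a rational place -/
theorem value_rat (s : GalSection K F Ω B) {O : ValuationSubring F} (hO : s.ArisesFrom O)
    {v : HeightOneSpectrum (𝓞 K)} {p : Plc K Ω (AlgebraicClosure (v.adicCompletion K))}
    (hp : s.GivenBy (v.adicCompletion K) p) {t : F} {y : K}
    (ht : O.valuation (t - algebraMap K F y) < 1) :
    p.val (algebraMap F Ω t)
      (algebraMap K (AlgebraicClosure (v.adicCompletion K)) y) := by
  have hmap : algebraMap K (AlgebraicClosure (v.adicCompletion K)) y =
      algebraMap (v.adicCompletion K) (AlgebraicClosure (v.adicCompletion K))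
        (algebraMap K (v.adicCompletion K) y) := IsScalarTower.algebraMap_apply _ _ _ _
  by_cases hmem : algebraMap F Ω t ∈ p.W
  · obtain ⟨x, hx⟩ := Plc.val_of_mem hmem
    obtain ⟨x', rfl⟩ := Pool.Agent.TH213.SEL.value_fixed hp (fun g => (s.s g).commutes t) hx
    rw [hmap, ← value_eq s hO hp ht hx]
    exact hx
  · exfalso
    -- the value is infinite
    obtain ⟨c, hc⟩ : ∃ c : K, y ≠ c := ⟨y + 1, by simp⟩
    have hyc0 : y - c ≠ 0 := sub_ne_zero.2 hc
    have hO1 := hO.2.1
    have hKy : algebraMap K F (y - c) ≠ 0 := (_root_.map_ne_zero _).2 hyc0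
    have hO1' : O.valuation (algebraMap K F (y - c)) = 1 := by
      apply le_antisymm ((O.valuation_le_one_iff _).2 (hO1 _))
      have h1 := (O.valuation_le_one_iff _).2 (hO1 (y - c)⁻¹)
      rw [map_inv₀, map_inv₀] at h1
      exact (inv_le_one₀ (zero_lt_iff.2 ((Valuation.ne_zero_iff _).2 hKy))).1 h1
    have hO2 : O.valuation (t - algebraMap K F c) = 1 := by
      have e1 : t - algebraMap K F c = (t - algebraMap K F y) + algebraMap K F (y - c) := by
        rw [map_sub]; ring
      rw [e1, Valuation.map_add_eq_of_lt_right _ (by rw [hO1']; exact ht), hO1']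
    have htc : t - algebraMap K F c ≠ 0 := by
      intro h0
      rw [h0, map_zero] at hO2
      exact zero_ne_one hO2
    have h1 : O.valuation ((t - algebraMap K F c)⁻¹ - algebraMap K F (y - c)⁻¹) < 1 := by
      have e1 : (t - algebraMap K F c)⁻¹ - algebraMap K F (y - c)⁻¹ =
          -((t - algebraMap K F y) / ((t - algebraMap K F c) * algebraMap K F (y - c))) := by
        rw [map_inv₀]
        field_simp
        rw [map_sub]
        ring
      rw [e1, Valuation.map_neg, map_div₀, map_mul, hO2, hO1', mul_one, div_one]
      exact ht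
    have h2 : algebraMap F Ω (t - algebraMap K F c) ∉ p.W := by
      intro h3
      apply hmem
      have h4 := add_mem h3 (p.alg_mem c)
      rwa [map_sub, ← IsScalarTower.algebraMap_apply K F Ω, sub_add_cancel] at h4
    have h3 : p.val (algebraMap F Ω (t - algebraMap K F c)⁻¹)
        (algebraMap (v.adicCompletion K) (AlgebraicClosure (v.adicCompletion K)) 0) := by
      rw [map_inv₀, map_zero]
      exact Plc.val_inv_of_notMem h2
    have h4 := value_eq s hO hp h1 h3
    exact inv_ne_zero hyc0 ((_root_.map_eq_zero _).1 h4.symm)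

lemma exists_place (K : Type) [Field K] [NumberField K] :
    Nonempty (HeightOneSpectrum (𝓞 K)) := by
  obtain ⟨v, hv⟩ := Ideal.exists_maximal (𝓞 K)
  refine ⟨⟨v, hv.isPrime, ?_⟩⟩
  rintro rfl
  exact RingOfIntegers.not_isField K (Ring.isField_iff_isSimpleOrder_ideal.2
    (by
      have := hv.1
      exact isSimpleOrder_iff_isCoatom_bot.2 this))

/-- The main theorem: let `k` be a subfield of `K` with finitely many units and `C` a set of at least
`[K : k]` elements of `K`. The section `s` comes from a rational point at which `t` has a finite value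
outside `C` if and only if its local points are bounded away from the zeros of `t - c`, `c ∈ C`, and
the poles of `t`. -/
theorem bounded_iff (k : Type) [Field k] [NumberField k] [Algebra k K] [Finite (𝓞 k)ˣ]
    (C : Finset K) (hC : Module.finrank k K ≤ C.card) (s : GalSection K F Ω B) (t : F)
    (ht : Transcendental K t) (hF : Algebra.IsAlgebraic (IntermediateField.adjoin K {t}) F)
    (p : ∀ v : HeightOneSpectrum (𝓞 K), Plc K Ω (AlgebraicClosure (v.adicCompletion K)))
    (hp : ∀ v, s.GivenBy (v.adicCompletion K) (p v)) :
    BoundedAway p t C ↔ ∃ O : ValuationSubring F, s.ArisesFrom O ∧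
      (∀ O', s.ArisesFrom O' → O' = O) ∧ ∃ y : K, y ∉ C ∧
        O.valuation (t - algebraMap K F y) < 1 ∧
        ∀ v : HeightOneSpectrum (𝓞 K), (p v).val (algebraMap F Ω t)
          (algebraMap K (AlgebraicClosure (v.adicCompletion K)) y) := by
  classical
  constructor
  · rintro ⟨N, hN⟩
    choose x hx hN using hN
    obtain ⟨O, hO1, hO2⟩ := main (k := k) C hC s t ht hF p hp x hx N (fun c hc v => hN v c hc)
    refine ⟨O, hO1, hO2, ?_⟩
    obtain ⟨v0⟩ := exists_place K
    have hKO := hO1.2.1
    have hd0 : 0 < Module.finrank k K := Module.finrank_pos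
    obtain ⟨c0, hc0⟩ : C.Nonempty := Finset.card_pos.1 (by omega)
    have hxc : ∀ c ∈ C, x v0 ≠ algebraMap K (v0.adicCompletion K) c := by
      intro c hc h0
      have h1 := (hN v0 c hc).1
      rw [h0, sub_self, map_zero] at h1
      simp at h1
    by_cases htO : t ∈ O
    · obtain ⟨y, hy⟩ := hO1.2.2.1 t htO
      refine ⟨y, ?_, hy, fun v => value_rat s hO1 (hp v) hy⟩
      intro hyC
      exact hxc y hyC (value_eq s hO1 (hp v0) hy (hx v0))
    · exfalso
      have h1 : t - algebraMap K F c0 ∉ O := by
        intro h2
        apply htO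
        have h3 := add_mem h2 (hKO c0)
        rwa [sub_add_cancel] at h3
      have htc : t - algebraMap K F c0 ≠ 0 := by
        intro h0
        rw [h0] at h1
        exact h1 (zero_mem _)
      have h2 : O.valuation ((t - algebraMap K F c0)⁻¹ - algebraMap K F 0) < 1 := by
        rw [map_zero, sub_zero]
        apply (ValuationSubring.mem_nonunits_iff_or _).2
        right
        rwa [inv_inv]
      have hx0 : x v0 - algebraMap K (v0.adicCompletion K) c0 ≠ 0 := sub_ne_zero.2 (hxc c0 hc0)
      have h3 : (p v0).val (algebraMap F Ω (t - algebraMap K F c0)⁻¹)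
          (algebraMap (v0.adicCompletion K) (AlgebraicClosure (v0.adicCompletion K))
            (x v0 - algebraMap K (v0.adicCompletion K) c0)⁻¹) := by
        have hpa : (p v0).val (algebraMap K Ω c0)
            (algebraMap (v0.adicCompletion K) (AlgebraicClosure (v0.adicCompletion K))
              (algebraMap K (v0.adicCompletion K) c0)) := by
          rw [← IsScalarTower.algebraMap_apply]
          exact Plc.val_alg (pl := p v0) c0
        have h4 := ((hx v0).sub hpa).inv (by
          rw [← map_sub]
          exact (_root_.map_ne_zero _).2 hx0)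
        rw [map_inv₀, map_inv₀, map_sub, map_sub, ← IsScalarTower.algebraMap_apply K F Ω]
        exact h4
      have h4 := value_eq s hO1 (hp v0) h2 h3
      rw [map_zero] at h4
      exact inv_ne_zero hx0 h4
  · rintro ⟨O, hO1, -, y, hyC, hy, hval⟩
    -- a bound for the valuations of `y - c`
    have hfin : ∀ c ∈ C, ∃ N : ℕ, ∀ v : HeightOneSpectrum (𝓞 K),
        (log (v.valuation K (y - c))).natAbs ≤ N := by
      intro c hc
      have h0 : y - c ≠ 0 := sub_ne_zero.2 fun h => hyC (h ▸ hc)
      have h1 := finite_ne_one h0
      obtain ⟨N, hN⟩ := (h1.image fun v => (log (v.valuation K (y - c))).natAbs).bddAbove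
      refine ⟨N, fun v => ?_⟩
      by_cases hv : v.valuation K (y - c) = 1
      · rw [hv, log_one]
        exact Nat.zero_le _
      · exact hN ⟨v, hv, rfl⟩
    have hfin' : ∃ N : ℕ, ∀ c ∈ C, ∀ v : HeightOneSpectrum (𝓞 K),
        (log (v.valuation K (y - c))).natAbs ≤ N := by
      choose! n hn using hfin
      refine ⟨C.sup n, fun c hc v => (hn c hc v).trans (Finset.le_sup hc)⟩
    obtain ⟨N, hN⟩ := hfin'
    refine ⟨N, fun v => ⟨algebraMap K (v.adicCompletion K) y, ?_, fun c hc => ?_⟩⟩
    · rw [← IsScalarTower.algebraMap_apply]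
      exact hval v
    · have h0 : y - c ≠ 0 := sub_ne_zero.2 fun h => hyC (h ▸ hc)
      have h1 : v.valuation K (y - c) ≠ 0 := (Valuation.ne_zero_iff _).2 h0
      rw [← map_sub, val_K, ← exp_log h1, exp_le_exp, exp_le_exp]
      have h2 := hN c hc v
      omega

end Pool.Agent.U36.BA
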