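import Pool.Agent.U36.BA.Core
import Pool.Agent.N890.KO.All
import Pool.Agent.TH213.SEL.Place
import Pool.Agent.TH213.SEL.Bir

/-!
Kummer classes of a birational section over a number field, and the main theorem.
-/

set_option autoImplicit false
set_option linter.unusedSectionVars false

open IsDedekindDomain NumberField WithZero Polynomial

namespace Pool.Agent.U36.BA

open Pool.Agent.TH954

section kum

variable {k F Ω B : Type} [Field k] [CharZero k] [Field F] [Field Ω] [Field B] [Algebra k F]
  [Algebra F Ω] [Algebra k Ω] [Algebra k B] [IsScalarTower k F Ω] [IsAlgClosure F Ω]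
  [IsAlgClosure k B]

/-- the action of a section on `Ω` -/
def act (s : GalSection k F Ω B) : (B ≃ₐ[k] B) →* (Ω ≃+* Ω) where
  toFun τ := (s.s τ : Ω ≃+* Ω)
  map_one' := by
    rw [map_one]
    rfl
  map_mul' a b := by
    rw [map_mul]
    rfl

lemma act_Act (s : GalSection k F Ω B) : Pool.Agent.N890.KO.Act (s.j : B →+* Ω) (act s) where
  eq τ y := s.sec τ y
  cont y := Pool.Agent.N890.KO.s_CNT k F Ω B s y

/-- Elements of `F` are constants times `n`-th powers of elements fixed by the section. -/
theorem exists_kum (s : GalSection k F Ω B) (u : F) (hu : u ≠ 0) (n : ℕ) (hn : 1 ≤ n) :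
    ∃ (b : k) (z : Ω), b ≠ 0 ∧ (∀ g, s.s g z = z) ∧
      algebraMap F Ω u = algebraMap k Ω b * z ^ n := by
  have hcl : IsAlgClosed Ω := IsAlgClosure.isAlgClosed F
  obtain ⟨c, z, hc0, -, hz, h⟩ := (Pool.Agent.N890.KO.s_KUM k B Ω (s.j : B →+* Ω) (act s)
    (act_Act s) n hn).1 (algebraMap F Ω u) (fun τ => (s.s τ).commutes u)
    ((_root_.map_ne_zero _).2 hu)
  refine ⟨c, z, hc0, fun g => hz g, ?_⟩
  rw [h]
  congr 1
  exact s.j.commutes c

end kum

variable {K : Type} [Field K] [NumberField K] {F Ω B : Type} [Field F] [Field Ω] [Field B]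
  [Algebra K F] [Algebra F Ω] [Algebra K Ω] [Algebra K B] [IsScalarTower K F Ω]
  [IsAlgClosure F Ω] [IsAlgClosure K B]

/-- The values of a function at the local points of a section are global modulo all powers. -/
theorem hyp_of_section (s : GalSection K F Ω B)
    (p : ∀ v : HeightOneSpectrum (𝓞 K), Plc K Ω (AlgebraicClosure (v.adicCompletion K)))
    (hp : ∀ v, s.GivenBy (v.adicCompletion K) (p v)) (u : F) (hu : u ≠ 0)
    (x : ∀ v : HeightOneSpectrum (𝓞 K), v.adicCompletion K)
    (hx : ∀ v, (p v).val (algebraMap F Ω u)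
      (algebraMap (v.adicCompletion K) (AlgebraicClosure (v.adicCompletion K)) (x v)))
    (N : ℕ) (hN : ∀ v, exp (-(N : ℤ)) ≤ Valued.v (x v) ∧ Valued.v (x v) ≤ exp (N : ℤ)) :
    Hyp x N := by
  refine ⟨fun v => (hN v).1, fun v => (hN v).2, fun n hn => ?_⟩
  obtain ⟨b, z, hb0, hz, h⟩ := exists_kum s u hu n hn
  refine ⟨b, hb0, fun v => ?_⟩
  have hcv : CharZero (AlgebraicClosure (v.adicCompletion K)) :=
    charZero_of_injective_algebraMap (algebraMap K (AlgebraicClosure (v.adicCompletion K))).injective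
  have hb1 : (p v).val (algebraMap K Ω b) (algebraMap K _ b) := Plc.val_alg (pl := p v) b
  have hbC : algebraMap K (AlgebraicClosure (v.adicCompletion K)) b ≠ 0 := (_root_.map_ne_zero _).2 hb0
  have hbΩ : algebraMap K Ω b ≠ 0 := (_root_.map_ne_zero _).2 hb0
  have h1 := (hb1.inv hbC).mul (hx v)
  have h2 : (algebraMap K Ω b)⁻¹ * algebraMap F Ω u = z ^ n := by
    rw [h, ← mul_assoc, inv_mul_cancel₀ hbΩ, one_mul]
  rw [h2] at h1
  obtain ⟨ζ, hζ⟩ := Plc.val_of_mem (Plc.mem_of_pow_mem (Nat.pos_of_ne_zero (by omega)) h1.mem)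
  obtain ⟨ζ', rfl⟩ := Pool.Agent.TH213.SEL.value_fixed (hp v) hz hζ
  refine ⟨ζ', ?_⟩
  apply (algebraMap (v.adicCompletion K) (AlgebraicClosure (v.adicCompletion K))).injective
  have h3 := (hζ.pow n).unique h1
  rw [map_mul, map_pow, h3, ← IsScalarTower.algebraMap_apply, ← mul_assoc, mul_inv_cancel₀ hbC,
    one_mul]

/-- the places of a section give places in the sense of the library -/
lemma geo_of_given (s : GalSection K F Ω B) {v : HeightOneSpectrum (𝓞 K)}
    {p : Plc K Ω (AlgebraicClosure (v.adicCompletion K))}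
    (hp : s.GivenBy (v.adicCompletion K) p) :
    haveI : IsAlgClosed Ω := IsAlgClosure.isAlgClosed F
    haveI : Algebra.IsAlgebraic F Ω := IsAlgClosure.isAlgebraic
    GeoPlc (toSAct s) p := by
  have hcl : IsAlgClosed Ω := IsAlgClosure.isAlgClosed F
  have halg : Algebra.IsAlgebraic F Ω := IsAlgClosure.isAlgebraic
  intro σ τ hστ y
  refine hp σ ((eqv K B).autCongr τ) ?_ y _ ⟨y.2, rfl⟩
  intro z c hc
  obtain ⟨y, rfl⟩ := (eqv K B).surjective z
  have e1 : p.val ((toSAct s).j y) (p.iot (toSAct s).j y) := Plc.val_j _ y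
  have e2 : p.val ((toSAct s).j (τ y)) (p.iot (toSAct s).j (τ y)) := Plc.val_j _ (τ y)
  have e3 : s.j ((eqv K B).autCongr τ (eqv K B y)) = (toSAct s).j (τ y) := by
    change s.j (eqv K B (τ ((eqv K B).symm (eqv K B y)))) = _
    rw [AlgEquiv.symm_apply_apply]
    rfl
  have e4 : p.iot (toSAct s).j y = c := e1.unique hc
  rw [e3, ← e4, ← hστ y]
  exact e2

/-- A section whose local points have bounded distance from `∞` and from `[K : k]` elements of `K`,
where `k` is a subfield with finitely many units, comes from exactly one rational point. -/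
theorem main {k : Type} [Field k] [NumberField k] [Algebra k K] [Finite (𝓞 k)ˣ] (C : Finset K)
    (hC : Module.finrank k K ≤ C.card) (s : GalSection K F Ω B) (t : F) (ht : Transcendental K t)
    (hF : Algebra.IsAlgebraic (IntermediateField.adjoin K {t}) F)
    (p : ∀ v : HeightOneSpectrum (𝓞 K), Plc K Ω (AlgebraicClosure (v.adicCompletion K)))
    (hp : ∀ v, s.GivenBy (v.adicCompletion K) (p v))
    (x : ∀ v : HeightOneSpectrum (𝓞 K), v.adicCompletion K)
    (hx : ∀ v, (p v).val (algebraMap F Ω t)
      (algebraMap (v.adicCompletion K) (AlgebraicClosure (v.adicCompletion K)) (x v)))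
    (N : ℕ) (hN : ∀ c ∈ C, ∀ v,
      exp (-(N : ℤ)) ≤ Valued.v (x v - algebraMap K (v.adicCompletion K) c) ∧
      Valued.v (x v - algebraMap K (v.adicCompletion K) c) ≤ exp (N : ℤ)) :
    ∃ O : ValuationSubring F, s.ArisesFrom O ∧ ∀ O', s.ArisesFrom O' → O' = O := by
  classical
  have hcl : IsAlgClosed Ω := IsAlgClosure.isAlgClosed F
  have hpa : ∀ v (a : K), (p v).val (algebraMap K Ω a)
      (algebraMap (v.adicCompletion K) (AlgebraicClosure (v.adicCompletion K))
        (algebraMap K (v.adicCompletion K) a)) := by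
    intro v a
    rw [← IsScalarTower.algebraMap_apply]
    exact Plc.val_alg (pl := p v) a
  obtain ⟨P, hP1, hP3⟩ := core (K := K) (k := k) C hC x N (fun c hc => by
    refine hyp_of_section s p hp (t - algebraMap K F c) ?_ _ (fun v => ?_) N (hN c hc)
    · intro h0
      apply ht
      rw [sub_eq_zero] at h0
      rw [h0]
      exact isAlgebraic_algebraMap _
    · rw [map_sub, map_sub, ← IsScalarTower.algebraMap_apply K F Ω]
      exact (hx v).sub (hpa v _))
  -- the function
  set f : F := aeval t P with hf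
  have hf0 : f ≠ 0 := by
    intro h0
    apply ht
    exact ⟨P, hP1.ne_zero, h0⟩
  have hval : ∀ v (Q : K[X]), (p v).val (algebraMap F Ω (aeval t Q))
      (algebraMap (v.adicCompletion K) (AlgebraicClosure (v.adicCompletion K))
        (Q.eval₂ (algebraMap K (v.adicCompletion K)) (x v))) := by
    intro v Q
    induction Q using Polynomial.induction_on' with
    | add a b ha hb =>
      rw [map_add, map_add, eval₂_add, map_add]
      exact ha.add hb
    | monomial n a =>
      rw [aeval_monomial, eval₂_monomial, map_mul, map_mul, map_pow, map_pow,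
        ← IsScalarTower.algebraMap_apply K F Ω]
      exact (hpa v a).mul ((hx v).pow n)
  have hf1 : ∀ v, (p v).val (algebraMap F Ω f) 0 := by
    intro v
    have h1 := hval v P
    rw [hP3 v, map_zero] at h1
    exact h1
  obtain ⟨O, -, hO1, hO2⟩ := Pool.Agent.TH213.SEL.bir_of_val ⟨t, ht, hF⟩ s p
    (fun v => geo_of_given s (hp v)) hf0 hf1
  exact ⟨O, hO1, hO2⟩

/-- the local points of a section which comes from a rational place, in the finite case -/
theorem value_eq (s : GalSection K F Ω B) {O : ValuationSubring F} (hO : s.ArisesFrom O)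
    {v : HeightOneSpectrum (𝓞 K)} {p : Plc K Ω (AlgebraicClosure (v.adicCompletion K))}
    (hp : s.GivenBy (v.adicCompletion K) p) {u : F} {y : K}
    (hu : O.valuation (u - algebraMap K F y) < 1) {x : v.adicCompletion K}
    (hx : p.val (algebraMap F Ω u)
      (algebraMap (v.adicCompletion K) (AlgebraicClosure (v.adicCompletion K)) x)) :
    x = algebraMap K (v.adicCompletion K) y := by
  classical
  have hcl : IsAlgClosed Ω := IsAlgClosure.isAlgClosed F
  have halg : Algebra.IsAlgebraic F Ω := IsAlgClosure.isAlgebraic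
  obtain ⟨-, hO1, -, W, hW, hst⟩ := hO
  have hKW : ∀ c : K, algebraMap K Ω c ∈ W := by
    intro c
    have h3 : algebraMap K F c ∈ W.comap (algebraMap F Ω) := by rw [hW]; exact hO1 c
    rw [ValuationSubring.mem_comap, ← IsScalarTower.algebraMap_apply] at h3
    exact h3
  have hvalW : ∀ z : F, O.valuation z < 1 → W.valuation (algebraMap F Ω z) < 1 := by
    intro z hz
    rcases (ValuationSubring.mem_nonunits_iff_or _).1 hz with h | h
    · rw [h, map_zero, map_zero]
      exact zero_lt_one
    · apply (ValuationSubring.mem_nonunits_iff_or _).2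
      right
      intro h3
      apply h
      rw [← hW, ValuationSubring.mem_comap, map_inv₀]
      exact h3
  by_contra hne
  set ι := algebraMap K (v.adicCompletion K) with hι
  have hxy : Valued.v (x - ι y) ≠ 0 := by
    rw [Valuation.ne_zero_iff]
    exact sub_ne_zero.2 hne
  -- an element `c` near `x`
  obtain ⟨c, hc0, hc1⟩ : ∃ c : K, Valued.v (x - ι c) ≠ 0 ∧
      Valued.v (x - ι c) < Valued.v (x - ι y) := by
    obtain ⟨δ, hδ⟩ := v.valuation_surjective K (Valued.v (x - ι y) * exp (-1 : ℤ))
    have hδ0 : v.valuation K δ ≠ 0 := by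
      rw [hδ]
      exact mul_ne_zero hxy (by simp)
    have hδ1 : v.valuation K δ < Valued.v (x - ι y) := by
      rw [hδ]
      refine mul_lt_of_lt_one_right (zero_lt_iff.2 hxy) ?_
      rw [← exp_zero, exp_lt_exp]
      norm_num
    obtain ⟨c1, hc1⟩ := exists_near v x hδ0
    refine ⟨c1 + δ, ?_⟩
    have h1 : Valued.v (x - ι (c1 + δ)) = v.valuation K δ := by
      have e1 : x - ι (c1 + δ) = (x - ι c1) - ι δ := by
        rw [map_add]; ring
      rw [e1, Valuation.map_sub_eq_of_lt_right, hι, val_K]
      rw [hι, val_K]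
      exact hc1
    rw [h1]
    exact ⟨hδ0, hδ1⟩
  have hyc : y ≠ c := by
    rintro rfl
    exact lt_irrefl _ hc1
  have hyc0 : y - c ≠ 0 := sub_ne_zero.2 hyc
  have hvyc : Valued.v (ι (y - c)) = Valued.v (x - ι y) := by
    have e1 : ι (y - c) = (x - ι c) - (x - ι y) := by
      rw [map_sub]; ring
    rw [e1, Valuation.map_sub_eq_of_lt_right _ hc1]
  -- `(u - c) / (y - c)` is a power
  set w : F := (u - algebraMap K F c) / algebraMap K F (y - c) with hw
  have hKy : algebraMap K F (y - c) ≠ 0 := (_root_.map_ne_zero _).2 hyc0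
  have hO1' : O.valuation (algebraMap K F (y - c)) = 1 := by
    apply le_antisymm ((O.valuation_le_one_iff _).2 (hO1 _))
    have h1 := (O.valuation_le_one_iff _).2 (hO1 (y - c)⁻¹)
    rw [map_inv₀, map_inv₀] at h1
    exact (inv_le_one₀ (zero_lt_iff.2 ((Valuation.ne_zero_iff _).2 hKy))).1 h1
  have hw1 : O.valuation (w - 1) < 1 := by
    have e1 : w - 1 = (u - algebraMap K F y) / algebraMap K F (y - c) := by
      rw [hw, div_sub_one hKy, map_sub]
      ring
    rw [e1, map_div₀, hO1', div_one]
    exact hu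
  set n : ℕ := (log (Valued.v (x - ι c)) - log (Valued.v (x - ι y))).natAbs + 1 with hn
  obtain ⟨g, hg, hgn⟩ := exists_root (toSAct s) hKW (fun τ z hz => (hst _ z).2 hz)
    (f := algebraMap F Ω w) (fun τ => (s.s ((eqv K B).autCongr τ)).commutes w) (by
      have := hvalW _ hw1
      rwa [map_sub, map_one] at this) (N := n) (by omega)
  have hgs : ∀ τ, s.s τ g = g := by
    intro τ
    have := hg ((eqv K B).autCongr.symm τ)
    rwa [toSAct_s] at this
  have hcv : CharZero (AlgebraicClosure (v.adicCompletion K)) :=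
    charZero_of_injective_algebraMap (algebraMap K (AlgebraicClosure (v.adicCompletion K))).injective
  have hpa : ∀ a : K, p.val (algebraMap K Ω a)
      (algebraMap (v.adicCompletion K) (AlgebraicClosure (v.adicCompletion K)) (ι a)) := by
    intro a
    rw [hι, ← IsScalarTower.algebraMap_apply]
    exact Plc.val_alg (pl := p) a
  have hιyc : ι (y - c) ≠ 0 := (_root_.map_ne_zero _).2 hyc0
  have hpw : p.val (algebraMap F Ω w)
      (algebraMap (v.adicCompletion K) (AlgebraicClosure (v.adicCompletion K))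
        ((x - ι c) / ι (y - c))) := by
    have e1 : algebraMap F Ω w = (algebraMap F Ω u - algebraMap K Ω c) *
        (algebraMap K Ω (y - c))⁻¹ := by
      rw [hw, map_div₀, map_sub (algebraMap F Ω), ← IsScalarTower.algebraMap_apply K F Ω,
        ← IsScalarTower.algebraMap_apply K F Ω, div_eq_mul_inv]
    have h1 := (hx.sub (hpa c)).mul ((hpa (y - c)).inv ((_root_.map_ne_zero _).2 hιyc))
    rw [e1, map_div₀, div_eq_mul_inv, map_sub (algebraMap (v.adicCompletion K)
      (AlgebraicClosure (v.adicCompletion K)))]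
    exact h1
  rw [← hgn] at hpw
  obtain ⟨ζ, hζ⟩ := Plc.val_of_mem (Plc.mem_of_pow_mem (n := n) (by omega) hpw.mem)
  obtain ⟨ζ', rfl⟩ := Pool.Agent.TH213.SEL.value_fixed hp hgs hζ
  have h3 := (hζ.pow n).unique hpw
  rw [← map_pow] at h3
  have h4 := (algebraMap (v.adicCompletion K)
    (AlgebraicClosure (v.adicCompletion K))).injective h3
  have h5 := congrArg (Valued.v (R := v.adicCompletion K)) h4
  rw [map_pow, map_div₀, hvyc] at h5
  have hζ0 : Valued.v ζ' ≠ 0 := by
    intro h0
    rw [h0, zero_pow (by omega)] at h5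
    exact div_ne_zero hc0 hxy h5.symm
  have h6 := congrArg log h5
  rw [log_pow, log_div hc0 hxy, nsmul_eq_mul] at h6
  have h7 : log (Valued.v (x - ι c)) - log (Valued.v (x - ι y)) < 0 := by
    have := (log_lt_log hc0 hxy).2 hc1
    omega
  have h8 : ((n : ℕ) : ℤ) ∣ (log (Valued.v (x - ι c)) - log (Valued.v (x - ι y))) := ⟨_, h6.symm⟩
  have h9 := Int.le_of_dvd (by omega : 0 < -(log (Valued.v (x - ι c)) - log (Valued.v (x - ι y))))
    ((dvd_neg).2 h8)
  omega

end Pool.Agent.U36.BA
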