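import Pool.Agent.U36.BA.Basic

/-!
Families of local elements with bounded valuations which are global modulo all powers.
-/

set_option autoImplicit false

open IsDedekindDomain NumberField WithZero

namespace Pool.Agent.U36.BA

variable {K : Type} [Field K] [NumberField K]

/-- The valuations of the `x v` are bounded, and modulo `n`-th powers the family is global. -/
structure Hyp (x : ∀ v : HeightOneSpectrum (𝓞 K), v.adicCompletion K) (B : ℕ) : Prop where
  lo : ∀ v, exp (-(B : ℤ)) ≤ Valued.v (x v)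
  hi : ∀ v, Valued.v (x v) ≤ exp (B : ℤ)
  kum : ∀ n : ℕ, 1 ≤ n → ∃ b : K, b ≠ 0 ∧ ∀ v, ∃ z : v.adicCompletion K,
    x v = algebraMap K (v.adicCompletion K) b * z ^ n

lemma Hyp.val_ne {x : ∀ v : HeightOneSpectrum (𝓞 K), v.adicCompletion K} {B : ℕ} (h : Hyp x B)
    (v : HeightOneSpectrum (𝓞 K)) : Valued.v (x v) ≠ 0 :=
  (lt_of_lt_of_le (by simp) (h.lo v)).ne'

/-- almost all of the valuations are `1` -/
theorem Hyp.finite {x : ∀ v : HeightOneSpectrum (𝓞 K), v.adicCompletion K} {B : ℕ} (h : Hyp x B) :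
    {v | Valued.v (x v) ≠ 1}.Finite := by
  obtain ⟨b, hb0, hb⟩ := h.kum (2 * B + 1) (by omega)
  refine (finite_ne_one hb0).subset fun v hv => ?_
  intro hbv
  apply hv
  obtain ⟨z, hz⟩ := hb v
  have h1 : Valued.v (x v) = Valued.v z ^ (2 * B + 1) := by
    rw [hz, map_mul, val_K, hbv, one_mul, map_pow]
  have hz0 : Valued.v z ≠ 0 := by
    intro h0
    apply h.val_ne v
    rw [h1, h0, zero_pow (by omega)]
  have h2 := h.lo v
  have h3 := h.hi v
  rw [h1, ← exp_log hz0, ← exp_nsmul, exp_le_exp, nsmul_eq_mul] at h2 h3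
  have h4 : log (Valued.v z) = 0 := by
    push_cast at h2 h3
    rcases lt_trichotomy (log (Valued.v z)) 0 with h5 | h5 | h5
    · nlinarith
    · exact h5
    · nlinarith
  rw [h1, ← exp_log hz0, h4, exp_zero, one_pow]

/-- the global element can be chosen with the same valuations -/
theorem Hyp.exists_unit {x : ∀ v : HeightOneSpectrum (𝓞 K), v.adicCompletion K} {B : ℕ}
    (h : Hyp x B) (m : ℕ) (hm : 1 ≤ m) : ∃ b : K, b ≠ 0 ∧ ∀ v, ∃ w : v.adicCompletion K,
      Valued.v w = 1 ∧ x v = algebraMap K (v.adicCompletion K) b * w ^ m := by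
  set c := classNumber K with hc
  have hc0 : 0 < c := classNumber_pos K
  obtain ⟨b, hb0, hb⟩ := h.kum (c * m) (Nat.mul_pos hc0 hm)
  choose z hz using hb
  have h1 : ∀ v, Valued.v (x v) = v.valuation K b * Valued.v (z v) ^ (c * m) := fun v => by
    conv_lhs => rw [hz v]
    rw [map_mul, val_K, map_pow]
  have hz0 : ∀ v, Valued.v (z v) ≠ 0 := by
    intro v h0
    apply h.val_ne v
    rw [h1 v, h0, zero_pow (Nat.mul_pos hc0 hm).ne', mul_zero]
  have hfin : {v | log (Valued.v (z v)) ≠ 0}.Finite := by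
    refine ((finite_ne_one hb0).union h.finite).subset fun v hv => ?_
    by_contra hno
    have h2 : v.valuation K b = 1 := by
      by_contra h3
      exact hno (Or.inl h3)
    have h3 : Valued.v (x v) = 1 := by
      by_contra h4
      exact hno (Or.inr h4)
    apply hv
    have h4 := h1 v
    rw [h2, h3, one_mul] at h4
    have h5 : Valued.v (z v) = 1 :=
      (pow_eq_one_iff.1 h4.symm).resolve_right (Nat.mul_pos hc0 hm).ne'
    rw [h5, log_one]
  obtain ⟨π, hπ0, hπ⟩ := exists_principal (fun v => log (Valued.v (z v))) hfin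
  have hπ' : ∀ v, v.valuation K π = Valued.v (z v) ^ c := by
    intro v
    rw [hπ v, ← hc]
    conv_rhs => rw [← exp_log (hz0 v)]
    rw [← exp_nsmul, nsmul_eq_mul]
  refine ⟨b * π ^ m, mul_ne_zero hb0 (pow_ne_zero _ hπ0), fun v =>
    ⟨z v ^ c / algebraMap K (v.adicCompletion K) π, ?_, ?_⟩⟩
  · rw [map_div₀, val_K, hπ' v, map_pow, div_self (pow_ne_zero _ (hz0 v))]
  · have h2 : algebraMap K (v.adicCompletion K) π ≠ 0 := (_root_.map_ne_zero _).2 hπ0
    conv_lhs => rw [hz v]
    rw [map_mul, map_pow, div_pow, ← pow_mul]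
    field_simp

/-- The family is approximated by global elements with the same valuations, uniformly. -/
theorem Hyp.exists_seq {x : ∀ v : HeightOneSpectrum (𝓞 K), v.adicCompletion K} {B : ℕ}
    (h : Hyp x B) : ∃ b : ℕ → K, (∀ j, b j ≠ 0) ∧ (∀ j v, v.valuation K (b j) = Valued.v (x v)) ∧
      ∀ q : 𝓞 K, q ≠ 0 → ∃ j0, ∀ j, j0 ≤ j → ∀ v : HeightOneSpectrum (𝓞 K),
        Valued.v (x v - algebraMap K (v.adicCompletion K) (b j)) ≤
          Valued.v (x v) * v.valuation K (algebraMap (𝓞 K) K q) := by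
  choose b hb0 w hw1 hw using fun j : ℕ => h.exists_unit j.factorial (Nat.factorial_pos j)
  have hv : ∀ j v, v.valuation K (b j) = Valued.v (x v) := fun j v => by
    conv_rhs => rw [hw j v]
    rw [map_mul, val_K, map_pow, hw1, one_pow, mul_one]
  refine ⟨b, hb0, hv, fun q hq => ?_⟩
  obtain ⟨e, he0, he⟩ := pow_near_one q hq
  refine ⟨e, fun j hj v => ?_⟩
  obtain ⟨f, hf⟩ := Nat.dvd_factorial he0 hj
  have h1 : x v - algebraMap K (v.adicCompletion K) (b j) =
      algebraMap K (v.adicCompletion K) (b j) * ((w j v ^ f) ^ e - 1) := by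
    conv_lhs => rw [hw j v]
    rw [← pow_mul, mul_comm f e, ← hf]
    ring
  rw [h1, map_mul, val_K, hv]
  refine mul_le_mul_right (he v _ ?_) _
  rw [map_pow, hw1, one_pow]

end Pool.Agent.U36.BA
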